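import Pool.Agent.W5h83.GT.ClassS
import Pool.Agent.W5h83.GT.Num5

/-!
# A gluing theorem for the `ℓ²`-homology of right-angled Coxeter groups

Let `L` be a finite flag complex which is the union of two full subcomplexes `L[A]` and `L[B]`, and let `S` be their
intersection. The right-angled Coxeter group `W` of `L` is the amalgam of the groups of `L[A]` and `L[B]` over the
group of `S`. Let `C[A]` be the union of `L[A]` and the cone over `S`; the group of `L[A]` amalgamated with itself
over the group of `S` (the group of the double of `L[A]`) has index two in the group of `C[A]`. We prove: if the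
`ℓ²`-homology in degree `i ≥ 1` vanishes for the groups of `C[A]` and `C[B]` then it vanishes for `W`. There is no
condition on `S`.

If `L` is a flag triangulated `(n-1)`-sphere and `S` is a full subcomplex which is an `(n-2)`-sphere then `C[A]` and
`C[B]` are flag `(n-1)`-spheres, and `L` is their connected sum along links of vertices (dually: two right-angled
`n`-polytopes are glued along isomorphic facets). The Mayer-Vietoris sequence gives the vanishing above the
middle for `W` only if the `ℓ²`-homology of the group of `S` vanishes in degree `i - 1`, which is not true in the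
essential case of odd `n` and `i = (n + 1) / 2`.

So the class of the flag complexes `L` for which the vanishing above `n / 2` predicted by Q1 holds for all full
subcomplexes is closed under such gluings (connected sums along links of vertices, doubles). It contains the class
`AR n`, with the barycentric subdivisions of the triangulated `(n-1)`-spheres. If the flag complex of `G` is a full
subcomplex of a flag triangulated `(n-1)`-sphere then the torsion-free subgroups of finite index of `W G` are the
fundamental groups of compact aspherical `n`-manifolds (with boundary).
-/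

set_option autoImplicit false

namespace Pool.Agent.Results.MP_4f4d9f_gt.GluingAlongLinks

open Pool.Agent.W907.SG Pool.Agent.W907.SM Pool.Agent.TH652.Above Pool.Agent.Y132.SI Pool.Agent.W5h83.GT

/-- (1) Gluing. Let the finite graph `G` have the vertex set `A ∪ B`, without edges between `A \ B` and `B \ A`, and
let `i ≥ 1`. If there are no nonzero `ℓ²` harmonic `i`-chains on the Davis complexes of the right-angled Coxeter
groups of the two graphs obtained from `G.induce A` and `G.induce B` by adding a vertex adjacent to `A ∩ B`, then
there are none for `G`.
(2) Let `G` be in the class `AS n`. There are no nonzero `ℓ²` harmonic `i`-chains for `i > n / 2`. For each `ε > 0`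
there is a finite set `E` of nontrivial elements of `W G` such that for every subgroup `H` of finite index which
contains no conjugate of an element of `E`, and for all `i > n / 2`, the `i`-th real Betti number of `H` (the
dimension of the space of the `H`-invariant real harmonic `i`-chains of the Davis complex) is at most `ε [W G : H]`.
If the flag complex of `G` is a real homology `(n-1)`-sphere then there are no nonzero `ℓ²` harmonic `i`-chains for
all `i ≠ n / 2`. -/
theorem result :
    (∀ (V : Type) [Fintype V] [LinearOrder V] (G : SimpleGraph V) (A B : Set V) [Fintype ↥A] [Fintype ↥B]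
      [LinearOrder (Option ↥A)] [LinearOrder (Option ↥B)] (i : ℕ), 1 ≤ i → A ∪ B = Set.univ →
      (∀ a ∈ A, a ∉ B → ∀ b ∈ B, b ∉ A → ¬ G.Adj a b) →
      L2Van (cone (G.induce A) {a | (a : V) ∈ B}) i → L2Van (cone (G.induce B) {b | (b : V) ∈ A}) i →
      L2Van G i) ∧
    ∀ (n : ℕ) (V : Type) [Fintype V] [LinearOrder V] (G : SimpleGraph V), AS n G →
      (∀ i : ℕ, n < 2 * i → L2Van G i) ∧
      (∀ ε : ℝ, 0 < ε → ∃ E : Finset (W G), (1 : W G) ∉ E ∧
        ∀ H : Subgroup (W G), H.FiniteIndex → (∀ g ∈ E, ∀ x : W G, x * g * x⁻¹ ∉ H) →
          ∀ i : ℕ, n < 2 * i → (Module.finrank ℝ (HInv G H i) : ℝ) ≤ ε * H.index) ∧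
      (HSph n G → ∀ i : ℕ, 2 * i ≠ n → L2Van G i) := by
  refine ⟨fun V _ _ G A B _ _ _ _ i hi hAB hno h1 h2 => van_sum G A B hAB hno i hi h1 h2, ?_⟩
  intro n V _ _ G hA
  have h : ∀ i : ℕ, n < 2 * i → L2Van G i := fun i hi => above_AS hA i hi
  exact ⟨h, fun ε hε => Pool.Agent.R781.VS.growth_of_above G n h ε hε, fun hS i hi => singer_AS hS hA i hi⟩

end Pool.Agent.Results.MP_4f4d9f_gt.GluingAlongLinks
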