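import Pool.Agent.W7h60.OM.Fin

set_option autoImplicit false

/-!
# Morse inequalities for `ℓ²`-Betti numbers and groups acting on totally ordered sets

Let the group `G` act freely on a locally finite simplicial complex `X` with finitely many orbits of
vertices, for instance the fundamental group of a closed triangulated aspherical `n`-manifold (or of a
compact one with boundary) on the universal covering. Let `h` be an equivariant map from the vertices
of `X` to a totally ordered set `Ω` on which `G` acts by order automorphisms, and let the values of
`h` at the vertices of each simplex be different. The descending link `L_v` of a vertex `v` consists of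
the simplices of the link of `v` all of whose vertices are lower than `v`.

We prove that the `k`-th `ℓ²`-Betti number of `X` is at most the sum of the numbers
`dim H̃_{k-1}(L_v; ℂ)`, where `v` runs through the orbits of vertices, and the corresponding strong
Morse inequalities for the alternating sums. In particular the `k`-th `ℓ²`-Betti number vanishes if the
descending links have no reduced homology in degree `k - 1`. So Q1 holds for a compact aspherical
`n`-manifold whose universal covering has such heights with `H̃_{k-1}(L_v; ℂ) = 0` for all `k > n/2`.

Examples of `Ω`: the integers or the real line with `G` acting by translations through a homomorphism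
(mapping tori, closed one-forms), the real line with `G` acting by arbitrary homeomorphisms (for
instance on the leaf space of an `ℝ`-covered foliation), a left-ordered group, quotients of a
left-ordered group by convex subgroups. If `G` is left-ordered, heights are obtained from an arbitrary
order of the representatives of the vertices (lexicographically).
-/

noncomputable section

namespace Pool.Agent.Results.MP_4f4d9f_gt.OrderedMorse

open Classical

/-- A simplicial complex with vertices in `V`: a set of nonempty finite sets of vertices (the
simplices) which contains the nonempty subsets of its members. -/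
structure Complex (V : Type) where
  /-- the simplices -/
  faces : Set (Finset V)
  nonempty : ∀ s ∈ faces, s.Nonempty
  down : ∀ s ∈ faces, ∀ t ⊆ s, t.Nonempty → t ∈ faces

/-- the translate of a set of vertices -/
def act {G V : Type} [Group G] [MulAction G V] (g : G) (s : Finset V) : Finset V :=
  s.image fun v => g • v

/-- The group `G` acts freely on the simplicial complex `X`; every vertex is contained in finitely
many simplices, and `R` is a finite set of representatives of the orbits of vertices. `G` acts on the
totally ordered set `Ω` by order automorphisms, and `h` is an equivariant map from the vertices of `X`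
to `Ω` whose values at the vertices of a simplex are pairwise different. -/
structure Heights (G : Type) {V Ω : Type} [Group G] [MulAction G V] [LinearOrder Ω]
    [MulAction G Ω] (X : Complex V) (h : V → Ω) (R : Finset V) : Prop where
  inv : ∀ (g : G), ∀ s ∈ X.faces, act g s ∈ X.faces
  free : ∀ (g : G) (v : V), g • v = v → g = 1
  star : ∀ v : V, {s | s ∈ X.faces ∧ v ∈ s}.Finite
  cover : ∀ v : V, ∃ r ∈ R, ∃ g : G, g • r = v
  unique : ∀ r ∈ R, ∀ r' ∈ R, ∀ g : G, g • r = r' → r = r'
  order : ∀ (g : G) (a b : Ω), a ≤ b → g • a ≤ g • b
  equivariant : ∀ (g : G) (v : V), h (g • v) = g • h v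
  generic : ∀ s ∈ X.faces, ∀ u ∈ s, ∀ v ∈ s, h u = h v → u = v

section defs

variable {V Ω : Type} [LinearOrder Ω]

/-- The incidence number of `s` and `t`: if `t` is obtained from `s` by removing the vertex `w` it
is `1` or `-1` according to the parity of the number of vertices of `s` higher than `w`, and otherwise
it is zero. -/
def incid (h : V → Ω) (s t : Finset V) : ℂ :=
  ∑ w ∈ s, if s.erase w = t then (-1) ^ (s.filter fun u => h w < h u).card else 0

/-- the simplices of dimension `k` -/
abbrev Cell (X : Complex V) (k : ℕ) : Type := {s : Finset V // s ∈ X.faces ∧ s.card = k + 1}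

/-- The `ℓ²` harmonic `k`-chains: the square-summable functions on the `k`-simplices whose boundary
and coboundary vanish. -/
def harmonic (X : Complex V) (h : V → Ω) (k : ℕ) : Set (lp (fun _ : Cell X k => ℂ) 2) :=
  {x | (∀ t ∈ X.faces, ∑' s : Cell X k, incid h s.1 t * x s = 0) ∧
    ∀ r ∈ X.faces, ∑' s : Cell X k, incid h r s.1 * x s = 0}

/-- the set `S` represents the orbits of the `k`-simplices -/
def Represents (G : Type) {V : Type} [Group G] [MulAction G V] (X : Complex V) (k : ℕ)
    (S : Finset (Cell X k)) : Prop :=
  (∀ c : Cell X k, ∃ s ∈ S, ∃ g : G, act g s.1 = c.1) ∧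
    ∀ s ∈ S, ∀ s' ∈ S, ∀ g : G, act g s.1 = s'.1 → s = s'

/-- The `ℓ²`-Betti number, that is, the von Neumann dimension of the space of the harmonic
`k`-chains, computed from a set `S` of representatives of the orbits of `k`-simplices: the sum over
`s` in `S` of one minus the squared distance from the indicator function of `s` to the harmonic
chains. -/
def l2Betti (X : Complex V) (h : V → Ω) (k : ℕ) (S : Finset (Cell X k)) : ℝ :=
  ∑ s ∈ S, (1 - (Metric.infDist (lp.single 2 s (1 : ℂ) : lp (fun _ : Cell X k => ℂ) 2)
    (harmonic X h k)) ^ 2)

/-- The descending link of the vertex `v` (with the empty simplex): the simplices of the link all of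
whose vertices are lower than `v`. -/
def descLink (X : Complex V) (h : V → Ω) (v : V) : Set (Finset V) :=
  {s | v ∉ s ∧ insert v s ∈ X.faces ∧ ∀ u ∈ s, h u < h v}

/-- The rank of the incidence matrix of the members of `L` with `a` elements and those with `b`
elements (the dimension of the space spanned by its rows). -/
def incRank (h : V → Ω) (L : Set (Finset V)) (a b : ℕ) : ℕ :=
  Module.finrank ℂ (Submodule.span ℂ (Set.range
    fun (s : {s : Finset V // s ∈ L ∧ s.card = a}) (t : {t : Finset V // t ∈ L ∧ t.card = b}) =>
      incid h s.1 t.1))

/-- The dimension of the reduced homology in degree `k - 1` with complex coefficients of the finite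
simplicial complex `L` (with the empty simplex): the number of the simplices with `k` vertices minus
the ranks of the two boundary maps. -/
def redBetti (h : V → Ω) (L : Set (Finset V)) (k : ℕ) : ℤ :=
  (Nat.card {s : Finset V // s ∈ L ∧ s.card = k} : ℤ) - incRank h L k (k - 1) -
    incRank h L (k + 1) k

end defs

open Pool.Agent.W7h60 Pool.Agent.W649.ZL

/-- (1) The `k`-th `ℓ²`-Betti number is at most the sum, over the orbits of vertices, of the dimensions
of the reduced homology in degree `k - 1` of the descending links. (2) If the descending links have no
reduced homology in degree `k - 1` then there are no nonzero `ℓ²` harmonic `k`-chains. (3) The strong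
Morse inequalities. -/
theorem result (G V Ω : Type) [Group G] [MulAction G V] [LinearOrder Ω] [MulAction G Ω]
    (X : Complex V) (h : V → Ω) (R : Finset V) (H : Heights G X h R) (k : ℕ) :
    (∀ S : Finset (Cell X k), Represents G X k S →
      l2Betti X h k S ≤ ∑ v ∈ R, (redBetti h (descLink X h v) k : ℝ)) ∧
    ((∀ v ∈ R, redBetti h (descLink X h v) k = 0) → ∀ x ∈ harmonic X h k, x = 0) ∧
    (∀ S : ∀ i, Finset (Cell X i), (∀ i, Represents G X i (S i)) →
      ∑ i ∈ Finset.range (k + 1), (-1) ^ (k - i) * l2Betti X h i (S i) ≤
        ∑ i ∈ Finset.range (k + 1), (-1) ^ (k - i) *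
          ∑ v ∈ R, (redBetti h (descLink X h v) i : ℝ)) := by
  have H' : OM.Heights G (⟨X.faces, X.nonempty, X.down⟩ : OM.Complex V) h R :=
    ⟨H.inv, H.free, H.star, H.cover, H.unique, H.order, H.equivariant, H.generic⟩
  have f0 : Fintype (OM.KK (⟨X.faces, X.nonempty, X.down⟩ : OM.Complex V) h R k) :=
    @Fintype.ofFinite _ (OM.KK_finite H' k)
  have f1 : Fintype (OM.KK (⟨X.faces, X.nonempty, X.down⟩ : OM.Complex V) h R (k + 1)) :=
    @Fintype.ofFinite _ (OM.KK_finite H' (k + 1))
  have f2 : Fintype (OM.KK (⟨X.faces, X.nonempty, X.down⟩ : OM.Complex V) h R (k + 2)) :=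
    @Fintype.ofFinite _ (OM.KK_finite H' (k + 2))
  have key := OM.vd_harm_le H' k
  have e1 : ∑ v : R, (OM.redBetti h (OM.descLink (⟨X.faces, X.nonempty, X.down⟩ : OM.Complex V) h
      (v : V)) k : ℝ) = ∑ v ∈ R, (redBetti h (descLink X h v) k : ℝ) :=
    Finset.sum_coe_sort R (fun v => (redBetti h (descLink X h v) k : ℝ))
  rw [e1] at key
  refine ⟨fun S hS => ?_, fun hv x hx => ?_, fun S hS => ?_⟩
  · have e2 := OM.l2Betti_eq H' k S hS
    have e3 : l2Betti X h k S = OM.l2Betti (⟨X.faces, X.nonempty, X.down⟩ : OM.Complex V) h k S :=
      rfl
    rw [e3, e2]
    exact key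
  · have h0 : ∑ v ∈ R, (redBetti h (descLink X h v) k : ℝ) = 0 :=
      Finset.sum_eq_zero fun v hvR => by rw [hv v hvR, Int.cast_zero]
    rw [h0] at key
    have h1 := eq_bot_of_vd_eq_zero _ (OM.harm_inv _ _ (LP.op_eqv _) (LP.op_eqv _)) key
    have h2 := (OM.pull_harmonic H' x).1 hx
    rw [h1, Submodule.mem_bot] at h2
    have h3 : OM.pull (OM.cellEquiv H' k) x = OM.pull (OM.cellEquiv H' k) 0 := by
      rw [h2]
      ext y
      rfl
    exact (OM.isometry_pull _).injective h3
  · have h1 := OM.strong H' S hS k
    have e2 : ∀ i, ∑ v : R, (OM.redBetti h (OM.descLink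
        (⟨X.faces, X.nonempty, X.down⟩ : OM.Complex V) h (v : V)) i : ℝ) =
          ∑ v ∈ R, (redBetti h (descLink X h v) i : ℝ) := fun i =>
      Finset.sum_coe_sort R (fun v => (redBetti h (descLink X h v) i : ℝ))
    simp only [e2] at h1
    exact h1

end Pool.Agent.Results.MP_4f4d9f_gt.OrderedMorse
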