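import Pool.Agent.W5h98.RM.Gex

set_option autoImplicit false

/-!
# Morse inequalities for `ℓ²`-Betti numbers and random heights

Let the countable group `G` act freely on a locally finite simplicial complex `X` with finitely many
orbits of vertices, for instance the fundamental group of a closed triangulated aspherical
`n`-manifold (or of a compact one with boundary) on the universal covering. Consider a random function
`h` on the vertices of `X` (the heights) such that the joint law of the increments `h u - h v` is
invariant under `G`, and such that the heights of the vertices of each simplex are almost surely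
different. The descending link `L_v` of a vertex `v` consists of the simplices of the link of `v` all
of whose vertices are lower than `v`.

We prove that the `k`-th `ℓ²`-Betti number of `X` is at most the sum of the expected values of
`dim H̃_{k-1}(L_v; ℂ)`, where `v` runs through the orbits of vertices, and the corresponding strong
Morse inequalities. Nothing is assumed about `G` (such as residual finiteness or soficity), and infinite
descending or ascending paths are allowed. So Q1 holds for a compact aspherical `n`-manifold if for
all `k > n/2` these sums can be made arbitrarily small by a choice of such random heights on the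
universal covering.

Examples of random heights: real functions with `h (g • v) = h v + χ g` for a homomorphism `χ` from
`G` to the real line (closed one-forms); independent identically distributed heights without atoms;
Gaussian heights of maps to Hilbert spaces. The last ones are part of the theorem: every map `F` from
the vertices to a Hilbert space which is injective on the vertices of each simplex, and such that
`‖F (g • u) - F (g • v)‖ = ‖F u - F v‖` (an equivariant map for an affine isometric action of `G` on
the Hilbert space) has Gaussian random heights `h` with the covariances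
`⟪F u - F v, F u' - F v'⟫` of the increments. In this case the right hand side is a total curvature of
the piecewise affine map `F` in the sense of Banchoff, and the inequality is an analogue of the
inequality of Chern and Lashof.
-/

noncomputable section

namespace Pool.Agent.Results.MP_4f4d9f_gt.RandomHeights

open Classical MeasureTheory

/-- A simplicial complex with vertices in `V`: a set of nonempty finite sets of vertices (the
simplices) which contains the nonempty subsets of its members. -/
structure Complex (V : Type) where
  /-- the simplices -/
  faces : Set (Finset V)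
  nonempty : ∀ s ∈ faces, s.Nonempty
  down : ∀ s ∈ faces, ∀ t ⊆ s, t.Nonempty → t ∈ faces

/-- the translate of a set of vertices -/
def act {G V : Type} [Group G] [MulAction G V] (g : G) (s : Finset V) : Finset V :=
  s.image fun v => g • v

/-- The group `G` acts freely on the simplices of the simplicial complex `X`; every vertex is contained
in finitely many simplices, and `R` is a finite set of representatives of the orbits of vertices.
Moreover `e` is a `G`-invariant system of incidence numbers: `e s t` is `1` or `-1` if `t` is a face of
codimension one of the simplex `s`, it is zero if `t` is not obtained from `s` by removing a vertex, and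
the square of the boundary operator is zero. (Such a system is obtained from a choice of orientations of
the simplices in a set of representatives of the orbits.) -/
structure FreeAction (G : Type) {V : Type} [Group G] [MulAction G V] (X : Complex V)
    (e : Finset V → Finset V → ℤ) (R : Finset V) : Prop where
  vertex : ∀ v : V, {v} ∈ X.faces
  inv : ∀ (g : G), ∀ s ∈ X.faces, act g s ∈ X.faces
  free : ∀ (g : G), ∀ s ∈ X.faces, act g s = s → g = 1
  star : ∀ v : V, {s | s ∈ X.faces ∧ v ∈ s}.Finite
  cover : ∀ v : V, ∃ r ∈ R, ∃ g : G, g • r = v
  unique : ∀ r ∈ R, ∀ r' ∈ R, ∀ g : G, g • r = r' → r = r'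
  sign : ∀ s ∈ X.faces, ∀ t ∈ X.faces, t ⊆ s → t.card + 1 = s.card → e s t = 1 ∨ e s t = -1
  zero : ∀ s t, ¬ (t ⊆ s ∧ t.card + 1 = s.card) → e s t = 0
  square : ∀ r ∈ X.faces, ∀ t ∈ X.faces, ∑ w ∈ r, e r (r.erase w) * e (r.erase w) t = 0
  equivariant : ∀ (g : G) (s t : Finset V), e (act g s) (act g t) = e s t

/-- The probability measure `ν` is the law of random heights: the joint law of the increments is
invariant under the group, and almost surely the heights of the vertices of each simplex are pairwise
different. -/
structure IsHeights (G : Type) {V : Type} [Group G] [MulAction G V] (X : Complex V)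
    (ν : Measure (V → ℝ)) : Prop where
  prob : IsProbabilityMeasure ν
  invariant : ∀ g : G, ν.map (fun h (p : V × V) => h (g • p.1) - h (g • p.2)) =
    ν.map (fun h (p : V × V) => h p.1 - h p.2)
  generic : ∀ᵐ h ∂ν, ∀ s ∈ X.faces, ∀ u ∈ s, ∀ v ∈ s, h u = h v → u = v

/-- The probability measure `ν` is the law of a Gaussian random function `h` on `V` whose increments
`h u - h v` have mean zero and the covariances `⟪F u - F v, F u' - F v'⟫`: its Fourier transform at a
linear combination of increments, which is a linear combination of values with coefficients `c v` of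
sum zero, is the exponential of `-‖∑ v, c v • F v‖ ^ 2 / 2`. -/
structure IsGaussian {V E : Type} [NormedAddCommGroup E] [InnerProductSpace ℝ E] (F : V → E)
    (ν : Measure (V → ℝ)) : Prop where
  prob : IsProbabilityMeasure ν
  char : ∀ (s : Finset V) (c : V → ℝ), ∑ v ∈ s, c v = 0 →
    ∫ h, Complex.exp (((∑ v ∈ s, c v * h v : ℝ) : ℂ) * Complex.I) ∂ν =
      Complex.exp (-((‖∑ v ∈ s, c v • F v‖ ^ 2 / 2 : ℝ) : ℂ))

section defs

variable {V : Type}

/-- the simplices of dimension `k` -/
abbrev Cell (X : Complex V) (k : ℕ) : Type := {s : Finset V // s ∈ X.faces ∧ s.card = k + 1}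

/-- The `ℓ²` harmonic `k`-chains: the square-summable functions on the `k`-simplices whose boundary
and coboundary vanish. -/
def harmonic (X : Complex V) (e : Finset V → Finset V → ℤ) (k : ℕ) :
    Set (lp (fun _ : Cell X k => ℂ) 2) :=
  {x | (∀ t ∈ X.faces, ∑' s : Cell X k, (e s.1 t : ℂ) * x s = 0) ∧
    ∀ r ∈ X.faces, ∑' s : Cell X k, (e r s.1 : ℂ) * x s = 0}

/-- the set `S` represents the orbits of the `k`-simplices -/
def Represents (G : Type) {V : Type} [Group G] [MulAction G V] (X : Complex V) (k : ℕ)
    (S : Finset (Cell X k)) : Prop :=
  (∀ c : Cell X k, ∃ s ∈ S, ∃ g : G, act g s.1 = c.1) ∧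
    ∀ s ∈ S, ∀ s' ∈ S, ∀ g : G, act g s.1 = s'.1 → s = s'

/-- The `ℓ²`-Betti number, that is, the von Neumann dimension of the space of the harmonic
`k`-chains, computed from a set `S` of representatives of the orbits of `k`-simplices: the sum over
`s` in `S` of one minus the squared distance from the indicator function of `s` to the harmonic
chains. -/
def l2Betti (X : Complex V) (e : Finset V → Finset V → ℤ) (k : ℕ) (S : Finset (Cell X k)) : ℝ :=
  ∑ s ∈ S, (1 - (Metric.infDist (lp.single 2 s (1 : ℂ) : lp (fun _ : Cell X k => ℂ) 2)
    (harmonic X e k)) ^ 2)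

/-- The descending link of the vertex `v` (with the empty simplex): the simplices of the link all of
whose vertices are lower than `v`. -/
def descLink (X : Complex V) (h : V → ℝ) (v : V) : Set (Finset V) :=
  {s | v ∉ s ∧ insert v s ∈ X.faces ∧ ∀ u ∈ s, h u < h v}

/-- The rank of the matrix of the incidence numbers of the cones `insert v s` and `insert v t`, for
the members `s` of `L` with `a` elements and the members `t` with `b` elements (the dimension of the
space spanned by its rows). For `b = a - 1` these are incidence numbers for `L`. -/
def incRank (e : Finset V → Finset V → ℤ) (v : V) (L : Set (Finset V)) (a b : ℕ) : ℕ :=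
  Module.finrank ℂ (Submodule.span ℂ (Set.range
    fun (s : {s : Finset V // s ∈ L ∧ s.card = a}) (t : {t : Finset V // t ∈ L ∧ t.card = b}) =>
      (e (insert v s.1) (insert v t.1) : ℂ)))

/-- The dimension of the reduced homology in degree `k - 1` with complex coefficients of the finite
simplicial complex `L` (with the empty simplex) in the link of `v`: the number of the simplices with
`k` vertices minus the ranks of the two boundary maps. -/
def redBetti (e : Finset V → Finset V → ℤ) (v : V) (L : Set (Finset V)) (k : ℕ) : ℤ :=
  (Nat.card {s : Finset V // s ∈ L ∧ s.card = k} : ℤ) - incRank e v L k (k - 1) -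
    incRank e v L (k + 1) k

end defs

open Pool.Agent.W5h98 Pool.Agent.W649.ZL

/-- (1) For random heights, the `k`-th `ℓ²`-Betti number is at most the sum, over the orbits of
vertices, of the expected dimension of the reduced homology in degree `k - 1` of the descending link,
and the strong Morse inequalities hold. (2) If these sums can be made arbitrarily small then there are
no nonzero `ℓ²` harmonic `k`-chains. (3) Every map from the vertices to a Hilbert space which is
injective on the vertices of each simplex and has invariant distances gives Gaussian random heights, to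
which (1) and (2) apply. -/
theorem result (G V : Type) [Group G] [Countable G] [MulAction G V] (X : Complex V)
    (e : Finset V → Finset V → ℤ) (R : Finset V) (H : FreeAction G X e R) :
    (∀ ν : Measure (V → ℝ), IsHeights G X ν →
      ∀ S : ∀ i, Finset (Cell X i), (∀ i, Represents G X i (S i)) → ∀ k : ℕ,
        l2Betti X e k (S k) ≤ ∑ v ∈ R, ∫ h, (redBetti e v (descLink X h v) k : ℝ) ∂ν ∧
        ∑ i ∈ Finset.range (k + 1), (-1) ^ (k - i) * l2Betti X e i (S i) ≤
          ∑ i ∈ Finset.range (k + 1), (-1) ^ (k - i) *
            ∑ v ∈ R, ∫ h, (redBetti e v (descLink X h v) i : ℝ) ∂ν) ∧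
    (∀ k : ℕ, (∀ ε : ℝ, 0 < ε → ∃ ν : Measure (V → ℝ), IsHeights G X ν ∧
        ∑ v ∈ R, ∫ h, (redBetti e v (descLink X h v) k : ℝ) ∂ν < ε) →
      ∀ x ∈ harmonic X e k, x = 0) ∧
    (∀ (E : Type) [NormedAddCommGroup E] [InnerProductSpace ℝ E] (F : V → E),
      (∀ (g : G) (u v : V), ‖F (g • u) - F (g • v)‖ = ‖F u - F v‖) →
      (∀ s ∈ X.faces, ∀ u ∈ s, ∀ v ∈ s, F u = F v → u = v) →
      ∃ ν : Measure (V → ℝ), IsGaussian F ν ∧ IsHeights G X ν) := by
  have H' : RM.Setup G (⟨X.faces, X.nonempty, X.down⟩ : W7h60.OM.Complex V) e R :=
    ⟨H.vertex, H.inv, H.free, H.star, H.cover, H.unique, H.zero, H.square, H.equivariant⟩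
  have hV : Countable V := by
    have hs : Function.Surjective (fun p : G × R => p.1 • (p.2 : V)) := by
      intro v
      obtain ⟨r, hr, g, hg⟩ := H.cover v
      exact ⟨(g, ⟨r, hr⟩), hg⟩
    exact hs.countable
  have hfin : ∀ c : ℕ, Fintype (RM.KK G (⟨X.faces, X.nonempty, X.down⟩ : W7h60.OM.Complex V) c) :=
    fun c => @Fintype.ofFinite _ (RM.KK_finite H' c)
  have hr : ∀ ν : Measure (V → ℝ), IsHeights G X ν →
      RM.Random G (⟨X.faces, X.nonempty, X.down⟩ : W7h60.OM.Complex V) ν := fun ν h =>
    ⟨h.prob, h.invariant, h.generic⟩
  refine ⟨fun ν hν S hS k => ⟨?_, ?_⟩, fun k hk x hx => ?_, fun E _ _ F hF hinj => ?_⟩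
  · have h1 := RM.main H' k ν (hr ν hν)
    rw [← RM.l2Betti_eq H' (S k) (hS k)] at h1
    exact h1
  · exact RM.strong H' ν (hr ν hν) S hS k
  · have h1 : vd (W7h60.OM.harm (W7h60.LP.op (RM.mat H' (k + 1) k))
        (W7h60.LP.op (RM.mat H' (k + 2) (k + 1)))) ≤ 0 := by
      refine le_of_forall_pos_le_add fun ε hε => ?_
      obtain ⟨ν, hν, hlt⟩ := hk ε hε
      rw [zero_add]
      exact (RM.main H' k ν (hr ν hν)).trans hlt.le
    have h2 := eq_bot_of_vd_eq_zero _ (W7h60.OM.harm_inv _ _ (W7h60.LP.op_eqv _)
      (W7h60.LP.op_eqv _)) h1
    have h3 := (RM.pull_harmonic H' x).1 hx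
    rw [h2, Submodule.mem_bot] at h3
    have h4 : W7h60.OM.pull (RM.cellEquiv H' k) x = W7h60.OM.pull (RM.cellEquiv H' k) 0 := by
      rw [h3]
      ext y
      rfl
    exact (W7h60.OM.isometry_pull _).injective h4
  · obtain ⟨ν, hν⟩ := RM.exists_gauss F
    have h1 := hν.random (G := G) (X := (⟨X.faces, X.nonempty, X.down⟩ : W7h60.OM.Complex V)) hF hinj
    exact ⟨ν, ⟨hν.prob, hν.char⟩, ⟨h1.prob, h1.inv, h1.gen⟩⟩

end Pool.Agent.Results.MP_4f4d9f_gt.RandomHeights
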