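import Pool.Agent.W5h14.TW.Crit

/-!
# `ℓ²`-homology above the middle dimension: reducible flag spheres and their flag subcomplexes

Let `L` be a flag triangulation of the sphere of dimension `n - 1`, with graph `G`. The torsion-free subgroups of
finite index of the right-angled Coxeter group `W G` are the fundamental groups of closed aspherical `n`-manifolds
(Davis), and the torsion-free subgroups of finite index of the special subgroups `W (G.induce A)` are the fundamental
groups of compact aspherical `n`-manifolds with boundary.

We prove Q1, and the Singer conjecture, for the flag spheres in the class `RedT` defined in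
`Pool/Agent/W5h14/TW/Def.lean`, in all dimensions `n`. It contains all flag spheres with `n ≤ 4` (in particular all
flag 2-spheres, for which we show that they can be contracted to a suspension) and all flag spheres with at most
`(5 n + 2) / 2` vertices. For `n` even it contains the flag spheres in which the vertices whose links are not reducible
(with their full subcomplexes) span no clique with more than `n / 2 + 1` elements and fewer than `2 ^ (n / 2 + 1)`
cliques with `n / 2 + 1` elements; for `n = 6`: no clique with five elements and at most 15 cliques with four elements.
The links with at most `(5 n - 3) / 2` vertices are reducible. For `n` odd the class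
contains the flag spheres with a vertex `v` whose non-neighbours span a tree, and it is closed under vertex
splitting, the inverse of the contraction of an edge `st` in no induced 4-cycle, with a condition on the links of the
edges of the tree (of the edge `st`), which is empty for `n = 5`. For all `n` it is closed under connected sums along
links of vertices (gluing of right-angled polytopes along facets): if the flag sphere is separated by a full
subcomplex which is a homology sphere of dimension one less, it is enough to consider the two flag spheres which arise
if one of the two sides is replaced by a cone.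

If the links of all simplices are reducible then the vanishing above the middle holds for the right-angled Coxeter
groups of all flag subcomplexes of `L`, that is, of all subgraphs `H` of `G` (not only of the full ones).

So for `n = 5` we obtain all the flag 4-spheres which can be transformed by such contractions and by cutting along
full homology 3-spheres to flag spheres with a vertex whose non-neighbours span a tree, for instance to suspensions (in
which case the tree is a point), and all flag subcomplexes of these flag 4-spheres. A flag 4-sphere with the least
number of vertices for which the Singer conjecture fails would have no such vertex, each of its edges would be in an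
induced 4-cycle, and it would be prime: each full subcomplex which is a homology 3-sphere is the link of a vertex.

`HSph n G`: the flag complex of `G` is a real homology manifold with the real homology of the `(n-1)`-sphere (this
includes all flag triangulations of the sphere). `L2Van H i`: there are no nonzero `ℓ²` harmonic `i`-chains on the
Davis complex of the right-angled Coxeter group of the graph `H`.
-/

set_option autoImplicit false

namespace Pool.Agent.Results.MP_4f4d9f_gt.TreeVertices

open Pool.Agent.W907.SG Pool.Agent.TH652.Above Pool.Agent.Y132.SI Pool.Agent.W5h83.FS Pool.Agent.W5h14.TV
  Pool.Agent.W5h14.TW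

/-- There are no nonzero `ℓ²` harmonic `i`-chains on the Davis complex of `W H` for `i > n / 2`, and for each `ε > 0`
there is a finite set `E` of nontrivial elements of `W H` such that for every subgroup `K` of finite index which
contains no conjugate of an element of `E`, and for all `i > n / 2`, the `i`-th real Betti number of `K` is at most
`ε [W H : K]`. -/
def AboveMiddle (n : ℕ) {U : Type} [Fintype U] [LinearOrder U] (H : SimpleGraph U) : Prop :=
  (∀ i : ℕ, n < 2 * i → L2Van H i) ∧
    ∀ ε : ℝ, 0 < ε → ∃ E : Finset (W H), (1 : W H) ∉ E ∧
      ∀ K : Subgroup (W H), K.FiniteIndex → (∀ g ∈ E, ∀ x : W H, x * g * x⁻¹ ∉ K) →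
        ∀ i : ℕ, n < 2 * i → (Module.finrank ℝ (HInv H K i) : ℝ) ≤ ε * K.index

/-- Let the flag complex `L` of the finite graph `G` be a real homology `(n-1)`-sphere.
(1) Let the links of all simplices of `L`, and `L` itself, be reducible (`b = true`). Then the vanishing above the
middle, and the bound for the Betti numbers, hold for the graph `H.induce A` for all subgraphs `H` of `G` and all sets
`A` of vertices, that is, for all flag subcomplexes of `L`.
(2) Let `L` be reducible (`b = true`), and let `A` be any set of vertices; or let `L` be reducible in the weaker sense
(`b = false`), and let `A` be the set of all vertices. Then they hold for `G.induce A`.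
(3) If `L` is reducible in either sense then there are no nonzero `ℓ²` harmonic `i`-chains on the Davis complex of
`W G` for `i ≠ n / 2`, and `(-1)^m χ (W G) ≥ 0` if `n = 2 m`.
(4) The condition in (1) holds if `n ≤ 5` and `L` is reducible, and (5) if the link of each simplex `σ` of odd type
`k = n - |σ| ≥ 5` has at most `(5 k + 2) / 2` vertices or a vertex whose non-neighbours in the link span a tree.
(6) Let `n = 2 m + 2`, and let `U` be a set of vertices which contains all vertices that are not good (`GoodVertex`: a
vertex with at most `5 m + 3` neighbours, or such that the condition of (5) holds for all simplices `σ` which contain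
it). If there is no clique with more than `m + 2` elements in `U`, and fewer than `2 ^ (m + 2)` cliques with `m + 2`
elements, then `L` is reducible. For `n = 6` a vertex is good if its link has at most 13 vertices or a vertex whose
non-neighbours in the link span a tree. -/
theorem result : ∀ (n : ℕ) (V : Type) [Fintype V] [LinearOrder V] (G : SimpleGraph V), HSph n G →
    (RedTL n G → ∀ (H : SimpleGraph V) (A : Set V) [Fintype ↥A], H ≤ G → AboveMiddle n (H.induce A)) ∧
    (∀ (b : Bool) (A : Set V) [Fintype ↥A], RedT b n G Finset.univ → (b = false → A = Set.univ) →
      AboveMiddle n (G.induce A)) ∧
    (∀ b : Bool, RedT b n G Finset.univ →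
      (∀ i : ℕ, 2 * i ≠ n → L2Van G i) ∧ ∀ m : ℕ, n = 2 * m → 0 ≤ (-1 : ℚ) ^ m * chiW G) ∧
    (n ≤ 5 → RedT true n G Finset.univ → RedTL n G) ∧
    ((∀ (σ : Finset V) (m : ℕ), G.IsClique (σ : Set V) → σ.card + (2 * m + 5) = n →
      2 * (lkF G σ).card ≤ 5 * (2 * m + 5) + 2 ∨ ∃ v ∈ lkF G σ, SpansTree G (mn G (lkF G σ) v)) →
      RedTL n G ∧ RedT true n G Finset.univ) ∧
    (∀ (m : ℕ) (U : Finset V), n = 2 * m + 2 → (∀ x, x ∉ U → GoodVertex (2 * m + 2) G x) →
      (∀ T : Finset V, T ⊆ U → G.IsClique (T : Set V) → T.card ≤ m + 2) →
      (cliques G (m + 2) U).card < 2 ^ (m + 2) → RedT true n G Finset.univ) := by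
  classical
  intro n V _ _ G hS
  have h2 : ∀ b : Bool, RedT b n G Finset.univ → ∀ i : ℕ, 2 * i ≠ n → L2Van G i := fun b hR i hi =>
    singer_of_above hS (fun j hj => redT_sphere hS hR j hj _ _) i hi
  refine ⟨fun hR H A _ hle => ?_, fun b A _ hR hb => ?_, fun b hR => ⟨h2 b hR, ?_⟩, redTL_five,
    fun hc => ⟨redTL_crit hc, redTL_univ (redTL_crit hc)⟩, ?_⟩
  · have h1 : ∀ i : ℕ, n < 2 * i → L2Van (H.induce A) i := fun i hi => redTL_sub hS hR hle A i hi _ _
    exact ⟨h1, fun ε hε => Pool.Agent.R781.VS.growth_of_above _ n h1 ε hε⟩
  · have h1 : ∀ i : ℕ, n < 2 * i → L2Van (G.induce A) i := by
      intro i hi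
      cases b with
      | false =>
        obtain rfl := hb rfl
        exact (lv_univ G i).2 (redT_sphere hS hR i hi) _ _
      | true => exact redT_full hS hR A i hi _ _
    exact ⟨h1, fun ε hε => Pool.Agent.R781.VS.growth_of_above _ n h1 ε hε⟩
  · rintro m rfl
    exact chi_sign G fun i hi => h2 b hR i (by omega)
  · rintro m U rfl h1 h3 h4
    exact redT_even_crit U h1 h3 h4 true

end Pool.Agent.Results.MP_4f4d9f_gt.TreeVertices
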